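import Mathlib
import Pool.Agent.F623.Final

/-!
# MP_f6df18_co : sets of vertices almost all of whose quadruples cross

Every rotation system of a complete graph on at least `2 ^ ((30 k) ^ 21 n)` vertices in which every
four vertices look like a simple drawing of `K_4` has `n` vertices such that at most a
proportion `1 / k` of the ordered quadruples of distinct vertices among them do not induce a
crossing.
-/

namespace Pool.Agent.Results.MP_f6df18_co.AlmostAll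

open H83XR

theorem result (V : Type) [Fintype V] (pos : V → V → ℕ) (hp : IsRotation pos)
    (hr : Realizable pos) (n k : ℕ) (hk : 1 ≤ k)
    (hV : 2 ^ ((30 * k) ^ 21 * n) ≤ Fintype.card V) :
    ∃ S : Finset V, S.card = n ∧
      {q : V × V × V × V | (q.1 ∈ S ∧ q.2.1 ∈ S ∧ q.2.2.1 ∈ S ∧ q.2.2.2 ∈ S) ∧
        (q.1 ≠ q.2.1 ∧ q.1 ≠ q.2.2.1 ∧ q.1 ≠ q.2.2.2 ∧ q.2.1 ≠ q.2.2.1 ∧ q.2.1 ≠ q.2.2.2 ∧
          q.2.2.1 ≠ q.2.2.2) ∧
        ¬ ((Crossed pos q.1 q.2.1 q.2.2.1 q.2.2.2 ∨ Crossed pos q.1 q.2.2.1 q.2.1 q.2.2.2 ∨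
          Crossed pos q.1 q.2.2.2 q.2.1 q.2.2.1) ∧
          ¬ Uncrossed pos q.1 q.2.1 q.2.2.1 q.2.2.2)}.ncard * k ≤ n * (n - 1) * (n - 2) * (n - 3) := by
  obtain ⟨S, hS, hS2⟩ := F623.almost_all hp hr n k hk hV
  refine ⟨S, hS, le_trans (Nat.mul_le_mul_right k ?_) hS2⟩
  refine Set.ncard_le_ncard ?_ (Set.toFinite _)
  rintro ⟨a, b, c, d⟩ ⟨⟨ha, hb, hc, hd⟩, ⟨hab, hac, had, hbc, hbd, hcd⟩, h⟩
  refine ⟨ha, hb, hc, hd, hab, hac, had, hbc, hbd, hcd, ?_⟩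
  by_contra hcon
  rcases hr a b c d hab hac had hbc hbd hcd with h1 | h1
  · exact hcon h1
  · exact h ⟨h1, hcon⟩

end Pool.Agent.Results.MP_f6df18_co.AlmostAll
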