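import Mathlib
import Pool.Agent.CV21.Main

/-!
# MP_f6df18_co : an exponential Erdos-Szekeres theorem for convex drawings

A convex rotation system of a complete graph with at least `33 ^ n` vertices has `n` vertices
in convex position; in particular every four of them induce a crossing.
-/

namespace Pool.Agent.Results.MP_f6df18_co.ConvexDrawings

open H83XR CV21

theorem result (V : Type) [Fintype V] (pos : V → V → ℕ) (hp : IsRotation pos)
    (hr : Realizable pos) (hc : Convex pos) (n : ℕ) (hV : 33 ^ n ≤ Fintype.card V) :
    ∃ x : Fin n → V, Function.Injective x ∧
      ∀ i j k l, i < j → j < k → k < l → Crossed pos (x i) (x k) (x j) (x l) :=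
  CV21.main hp hr hc n hV

end Pool.Agent.Results.MP_f6df18_co.ConvexDrawings
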