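import Mathlib
import Pool.Agent.H83XR.Mono

/-!
# MP_f6df18_co : x-monotone drawings

Every x-monotone drawing of the complete graph on at least `n ^ (2 n²)` vertices has `n` vertices
that behave like points in convex position.
-/

namespace Pool.Agent.Results.MP_f6df18_co.MonotoneDrawings

open H83XR

theorem result (N : ℕ) (D : MonoDrawing N) (n : ℕ) (hN : n ^ (2 * n ^ 2) ≤ N) :
    ∃ S : Finset (Fin N), S.card = n ∧
      ((∀ i ∈ S, ∀ j ∈ S, ∀ k ∈ S, i < j → j < k → D.Above i j k) ∨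
        (∀ i ∈ S, ∀ j ∈ S, ∀ k ∈ S, i < j → j < k → D.Below i j k)) ∧
      ∀ i ∈ S, ∀ j ∈ S, ∀ k ∈ S, ∀ l ∈ S, i < j → j < k → k < l → D.Meet i k j l :=
  D.main n hN

end Pool.Agent.Results.MP_f6df18_co.MonotoneDrawings
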