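import Mathlib
import Pool.Agent.H83XR.Main

/-!
# MP_f6df18_co : all-crossing sets of vertices, for rotation systems

Every rotation system of a complete graph on more than `2 ^ (96 n² ⌈log₂ n⌉²)` vertices in which
every four vertices look like a simple drawing of `K_4` has `n` vertices every four of which
induce a crossing.
-/

namespace Pool.Agent.Results.MP_f6df18_co.RotationSystems

open H83XR

theorem result (V : Type) [Fintype V] (pos : V → V → ℕ) (hp : IsRotation pos)
    (hr : Realizable pos) (n : ℕ) (hV : 2 ^ (96 * n ^ 2 * Nat.clog 2 n ^ 2) < Fintype.card V) :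
    ∃ S : Finset V, S.card = n ∧ ∀ a ∈ S, ∀ b ∈ S, ∀ c ∈ S, ∀ d ∈ S,
      a ≠ b → a ≠ c → a ≠ d → b ≠ c → b ≠ d → c ≠ d →
      (Crossed pos a b c d ∨ Crossed pos a c b d ∨ Crossed pos a d b c) ∧
        ¬ Uncrossed pos a b c d := by
  obtain ⟨S, hS, hS2⟩ := H83XR.main hp hr n hV
  refine ⟨S, hS, ?_⟩
  intro a ha b hb c hc d hd hab hac had hbc hbd hcd
  have h := hS2 a ha b hb c hc d hd hab hac had hbc hbd hcd
  rcases hr a b c d hab hac had hbc hbd hcd with h1 | h1
  · exact absurd h1 h
  · exact ⟨h1, h⟩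

end Pool.Agent.Results.MP_f6df18_co.RotationSystems
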